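import Pool.Agent.J6H10.GW.Ult
import Pool.Agent.H752R3.MT

/-!
# Gowers' ultrafilters: fusion
-/

set_option autoImplicit false

namespace Pool.Agent.J6H10.GW

open Filter Topology Pool.Agent.J6H10.LW Pool.Agent.H752R3.MT

attribute [local instance] finSemigroup Ultrafilter.mul Ultrafilter.semigroup

theorem iter_union (t : ℕ) (x y : Wc) : tet^[t] (x ∪ y) = tet^[t] x ∪ tet^[t] y := by
  induction t generalizing x y with
  | zero => rfl
  | succ t ih => rw [Function.iterate_succ_apply, Function.iterate_succ_apply,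
      Function.iterate_succ_apply, tet_union, ih]

theorem mem_iter {t : ℕ} {w : Wc} {a v : ℕ} :
    (a, v) ∈ tet^[t] w ↔ (t = 0 ∨ 1 ≤ v) ∧ (a, v + t) ∈ w := by
  induction t generalizing w v with
  | zero => simp
  | succ t ih =>
    rw [Function.iterate_succ_apply, ih, mem_tet]
    constructor
    · rintro ⟨h1, h2, h3⟩
      refine ⟨Or.inr ?_, h3⟩
      omega
    · rintro ⟨h1, h2⟩
      refine ⟨?_, ?_, h2⟩ <;> omega

/-- the elements which can be continued -/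
def star (q : ℕ → Ultrafilter Wc) (K : ℕ) (Q : ℕ → Set Wc) (i : ℕ) : Set Wc :=
  {x | x ∈ Q i ∧ ∀ j ≤ K, {y | x ∪ y ∈ Q (max i j)} ∈ q j}

theorem star_mono (q : ℕ → Ultrafilter Wc) {K : ℕ} {Q Q' : ℕ → Set Wc}
    (h : ∀ i ≤ K, Q i ⊆ Q' i) {i : ℕ} (hi : i ≤ K) : star q K Q i ⊆ star q K Q' i :=
  fun _ hx => ⟨h i hi hx.1, fun j hj => mem_of_superset (hx.2 j hj)
    fun _ hy => h _ (max_le hi hj) hy⟩

theorem star_mem {q : ℕ → Ultrafilter Wc} (hq : ∀ m n, q m * q n = q (max m n)) {K : ℕ}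
    {Q : ℕ → Set Wc} (hQ : ∀ i ≤ K, Q i ∈ q i) {i : ℕ} (hi : i ≤ K) : star q K Q i ∈ q i := by
  have h1 : (⋂ j ∈ Set.Iic K, {x | {y | x ∪ y ∈ Q (max i j)} ∈ q j}) ∈ q i := by
    rw [← Ultrafilter.mem_coe, Filter.biInter_mem (Set.finite_Iic K)]
    intro j hj
    have h2 : Q (max i j) ∈ q i * q j := by
      rw [hq]
      exact hQ _ (max_le hi hj)
    rw [LW.mem_mul] at h2
    exact h2
  refine mem_of_superset (inter_mem (hQ i hi) h1) fun x hx => ⟨hx.1, fun j hj => ?_⟩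
  exact Set.mem_iInter₂.1 hx.2 j hj

theorem star_star {q : ℕ → Ultrafilter Wc} (hq : ∀ m n, q m * q n = q (max m n)) {K : ℕ}
    {Q : ℕ → Set Wc} {i : ℕ} {x : Wc} (hx : x ∈ star q K Q i) {j : ℕ} (hj : j ≤ K) :
    {y | x ∪ y ∈ star q K Q (max i j)} ∈ q j := by
  have h1 : (⋂ l ∈ Set.Iic K, {y | {z | x ∪ y ∪ z ∈ Q (max (max i j) l)} ∈ q l}) ∈ q j := by
    rw [← Ultrafilter.mem_coe, Filter.biInter_mem (Set.finite_Iic K)]
    intro l hl
    have h2 := hx.2 (max j l) (max_le hj hl)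
    rw [← hq, LW.mem_mul] at h2
    refine mem_of_superset h2 fun y hy => ?_
    have hy' : {z | y ∪ z ∈ {y | x ∪ y ∈ Q (max i (max j l))}} ∈ q l := hy
    show {z | x ∪ y ∪ z ∈ Q (max (max i j) l)} ∈ q l
    refine mem_of_superset hy' fun z hz => ?_
    have hz' : x ∪ (y ∪ z) ∈ Q (max i (max j l)) := hz
    show x ∪ y ∪ z ∈ Q (max (max i j) l)
    rw [Finset.union_assoc, max_assoc]
    exact hz'
  refine mem_of_superset (inter_mem (hx.2 j hj) h1) fun y hy => ⟨hy.1, fun l hl => ?_⟩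
  exact Set.mem_iInter₂.1 hy.2 l hl

theorem map_iter {q : ℕ → Ultrafilter Wc} (hT : ∀ n, (q (n + 1)).map tet = q n) (n t : ℕ) :
    (q (n + t)).map (tet^[t]) = q n := by
  induction t generalizing n with
  | zero => rw [Function.iterate_zero]; exact Ultrafilter.map_id _
  | succ t ih =>
    rw [Function.iterate_succ, ← Ultrafilter.map_map, ← add_assoc, hT, ih]

theorem fin_states (n : ℕ) (B : Wc) : {s : List Wc | s.length ≤ n ∧ ∀ y ∈ s, y ⊆ B}.Finite := by
  have h1 := (List.finite_length_le {y : Wc // y ∈ B.powerset} n).image (List.map Subtype.val)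
  refine h1.subset ?_
  rintro s ⟨hs1, hs2⟩
  refine ⟨s.attach.map fun y => ⟨y.1, Finset.mem_powerset.2 (hs2 y.1 y.2)⟩, ?_, ?_⟩
  · simpa using hs1
  · rw [List.map_map]
    exact List.attach_map_subtype_val s

/-- the sets needed at stage `n` -/
def need (𝔸 : ℕ → List Wc → Set Wc) (n : ℕ) (B : Wc) : Set Wc :=
  {x | ∀ j ≤ n, ∀ s : List Wc, s.length ≤ n → (∀ y ∈ s, y ⊆ B) → x ∈ 𝔸 j s}

theorem need_mem {q : Ultrafilter Wc} {𝔸 : ℕ → List Wc → Set Wc} (hA : ∀ j s, 𝔸 j s ∈ q) (n : ℕ)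
    (B : Wc) : need 𝔸 n B ∈ q := by
  have h1 : (⋂ j ∈ Set.Iic n, ⋂ s ∈ {s : List Wc | s.length ≤ n ∧ ∀ y ∈ s, y ⊆ B}, 𝔸 j s) ∈ q := by
    rw [← Ultrafilter.mem_coe, Filter.biInter_mem (Set.finite_Iic n)]
    intro j _
    rw [Filter.biInter_mem (fin_states n B)]
    exact fun s _ => hA j s
  refine mem_of_superset h1 fun x hx j hj s hs1 hs2 => ?_
  exact Set.mem_iInter₂.1 (Set.mem_iInter₂.1 hx j hj) s ⟨hs1, hs2⟩

theorem pick {q : ℕ → Ultrafilter Wc} (hok : ∀ n, 1 ≤ n → Ok (q n) ∧ {w | Lev n w} ∈ q n)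
    (hT : ∀ n, (q (n + 1)).map tet = q n) {K : ℕ} (hK : 1 ≤ K) (n : ℕ) {A : ℕ → Set Wc}
    (hA : ∀ i ≤ K, A i ∈ q i) :
    ∃ W : Wc, Fn W ∧ Lev K W ∧ Bd n W ∧ ∀ t ≤ K, tet^[t] W ∈ A (K - t) := by
  have h1 : (⋂ t ∈ Set.Iic K, (tet^[t]) ⁻¹' (A (K - t))) ∈ q K := by
    rw [← Ultrafilter.mem_coe, Filter.biInter_mem (Set.finite_Iic K)]
    intro t ht
    have ht' : t ≤ K := ht
    have h2 : A (K - t) ∈ (q (K - t + t)).map (tet^[t]) := by
      rw [map_iter hT]
      exact hA _ (Nat.sub_le K t)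
    rw [Nat.sub_add_cancel ht'] at h2
    exact h2
  obtain ⟨W, ⟨⟨hW1, hW2⟩, hW3⟩, hW4⟩ := Ultrafilter.nonempty_of_mem
    (inter_mem (inter_mem (inter_mem (hok K hK).1.2 (hok K hK).2) ((hok K hK).1.1 n)) h1)
  refine ⟨W, hW1, hW2, hW3, fun t ht => ?_⟩
  exact Set.mem_iInter₂.1 hW4 t ht

theorem fusion {q : ℕ → Ultrafilter Wc} (hok : ∀ n, 1 ≤ n → Ok (q n) ∧ {w | Lev n w} ∈ q n)
    (hT : ∀ n, (q (n + 1)).map tet = q n) (hq : ∀ m n, q m * q n = q (max m n)) {K : ℕ}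
    (hK : 1 ≤ K) (𝔸 : ℕ → List Wc → Set Wc) (hA : ∀ j s, 𝔸 j s ∈ q K) :
    ∃ W : ℕ → Wc, (∀ i, Fn (W i) ∧ Lev K (W i)) ∧ (∀ i, ∀ t ∈ W i, ∀ t' ∈ W (i + 1), t.1 < t'.1) ∧
      ∀ (j : ℕ) (C : ℕ → Finset ℕ) (τ : ℕ → ℕ), Blk C → (∀ i ∈ C 0, j ≤ i) → (∀ i, τ i ≤ K) →
        (∀ l, ∃ i ∈ C l, τ i = 0) →
        ∀ l, ((C l).biUnion fun i => tet^[τ i] (W i)) ∈
          𝔸 j ((List.range l).map fun l' => (C l').biUnion fun i => tet^[τ i] (W i)) := by
  classical
  -- the recursion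
  let σ := ℕ × Wc × {Q : ℕ → Set Wc // ∀ i ≤ K, Q i ∈ q i}
  have hpick : ∀ st : σ, ∃ W : Wc, Fn W ∧ Lev K W ∧ Bd st.1 W ∧
      ∀ t ≤ K, tet^[t] W ∈ star q K st.2.2.1 (K - t) := fun st => pick hok hT hK st.1
        (fun i hi => star_mem hq st.2.2.2 hi)
  choose pk hpk1 hpk2 hpk3 hpk4 using hpick
  let B' : σ → Wc := fun st => st.2.1 ∪ (Finset.range (K + 1)).biUnion fun t => tet^[t] (pk st)
  let Q' : ℕ → σ → ℕ → Set Wc := fun n st i => st.2.2.1 i ∩
    {y | ∀ t ≤ K, tet^[t] (pk st) ∪ y ∈ star q K st.2.2.1 (max (K - t) i)} ∩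
      {y | i = K → y ∈ need 𝔸 (n + 1) (B' st)}
  have hQ' : ∀ (n : ℕ) (st : σ), ∀ i ≤ K, Q' n st i ∈ q i := by
    intro n st i hi
    refine inter_mem (inter_mem (st.2.2.2 i hi) ?_) ?_
    · have h1 : (⋂ t ∈ Set.Iic K, {y | tet^[t] (pk st) ∪ y ∈ star q K st.2.2.1 (max (K - t) i)}) ∈
          q i := by
        rw [← Ultrafilter.mem_coe, Filter.biInter_mem (Set.finite_Iic _)]
        exact fun t ht => star_star hq (hpk4 st t ht) hi
      exact mem_of_superset h1 fun y hy t ht => Set.mem_iInter₂.1 hy t ht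
    · by_cases hiK : i = K
      · subst hiK
        exact mem_of_superset (need_mem hA _ _) fun y hy _ => hy
      · exact mem_of_superset univ_mem fun y _ h => absurd h hiK
  let nx : ℕ → σ → σ := fun n st => ((pk st).sup Prod.fst + 1, B' st, ⟨Q' n st, hQ' n st⟩)
  have hinit : ∀ i ≤ K, {y | i = K → y ∈ need 𝔸 0 ∅} ∈ q i := by
    intro i hi
    by_cases hiK : i = K
    · subst hiK
      exact mem_of_superset (need_mem hA _ _) fun y hy _ => hy
    · exact mem_of_superset univ_mem fun y _ h => absurd h hiK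
  let f : ℕ → σ := fun n => Nat.rec (motive := fun _ => σ)
    (0, ∅, ⟨fun i => {y | i = K → y ∈ need 𝔸 0 ∅}, hinit⟩) nx n
  have hfs : ∀ n, f (n + 1) = nx n (f n) := fun n => rfl
  obtain ⟨W, hW⟩ : ∃ W : ℕ → Wc, W = fun n => pk (f n) := ⟨_, rfl⟩
  obtain ⟨Q, hQdef⟩ : ∃ Q : ℕ → ℕ → Set Wc, Q = fun n => (f n).2.2.1 := ⟨_, rfl⟩
  obtain ⟨B, hB⟩ : ∃ B : ℕ → Wc, B = fun n => (f n).2.1 := ⟨_, rfl⟩
  have hQs : ∀ n i, Q (n + 1) i = Q n i ∩
      {y | ∀ t ≤ K, tet^[t] (W n) ∪ y ∈ star q K (Q n) (max (K - t) i)} ∩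
      {y | i = K → y ∈ need 𝔸 (n + 1) (B (n + 1))} := by
    intro n i
    rw [hQdef, hW, hB]
  have hBs : ∀ n, B (n + 1) = B n ∪ (Finset.range (K + 1)).biUnion fun t => tet^[t] (W n) := by
    intro n
    rw [hW, hB]
  have hW1 : ∀ n t, t ≤ K → tet^[t] (W n) ∈ star q K (Q n) (K - t) := by
    intro n t ht
    rw [hW, hQdef]
    exact hpk4 (f n) t ht
  have hQmono : ∀ m n, m ≤ n → ∀ i ≤ K, Q n i ⊆ Q m i := by
    intro m n hmn
    induction n, hmn using Nat.le_induction with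
    | base => exact fun i _ => subset_rfl
    | succ n _ ih =>
      intro i hi
      rw [hQs]
      exact fun x hx => ih i hi hx.1.1
  have hBmono : ∀ m n, m ≤ n → B m ⊆ B n := by
    intro m n hmn
    induction n, hmn using Nat.le_induction with
    | base => exact subset_rfl
    | succ n _ ih =>
      rw [hBs]
      exact fun x hx => Finset.mem_union_left _ (ih hx)
  have hneed : ∀ n, Q n K ⊆ need 𝔸 n (B n) := by
    intro n
    rcases n with _ | n
    · rw [hQdef, hB]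
      exact fun y hy => hy rfl
    · rw [hQs]
      exact fun x hx => hx.2 rfl
  -- products
  have hsup : ∀ (τ : ℕ → ℕ) (F : Finset ℕ), F.sup (fun i => K - τ i) ≤ K := fun τ F =>
    Finset.sup_le fun i _ => Nat.sub_le _ _
  have hprod : ∀ (τ : ℕ → ℕ), (∀ i, τ i ≤ K) → ∀ F : Finset ℕ, F.Nonempty → ∀ m, (∀ i ∈ F, m ≤ i) →
      (F.biUnion fun i => tet^[τ i] (W i)) ∈ star q K (Q m) (F.sup fun i => K - τ i) := by
    intro τ hτ F
    induction F using Finset.induction_on_min with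
    | empty => exact fun h => absurd h Finset.not_nonempty_empty
    | insert a s has ih =>
      intro _ m hm
      rw [Finset.biUnion_insert]
      apply star_mono q (hQmono m a (hm a (Finset.mem_insert_self a s))) (hsup τ _)
      rw [Finset.sup_insert]
      by_cases hs : s.Nonempty
      · have h1 := ih hs (a + 1) (fun i hi => has i hi)
        have h2 := h1.1
        rw [hQs] at h2
        exact h2.1.2 (τ a) (hτ a)
      · rw [Finset.not_nonempty_iff_eq_empty] at hs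
        rw [hs, Finset.biUnion_empty, Finset.union_empty, Finset.sup_empty, sup_bot_eq]
        exact hW1 a (τ a) (hτ a)
  refine ⟨W, fun i => ?_, fun i t ht t' ht' => ?_, fun j C τ hC hj hτ hz l => ?_⟩
  · rw [hW]
    exact ⟨hpk1 (f i), hpk2 (f i)⟩
  · have h1 : (f (i + 1)).1 = (W i).sup Prod.fst + 1 := by
      rw [hW]
    have h2 : t.1 ≤ (W i).sup Prod.fst := Finset.le_sup (f := Prod.fst) ht
    have h3 : (f (i + 1)).1 ≤ t'.1 := by
      rw [hW] at ht'
      exact (hpk3 (f (i + 1))).2 t' ht'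
    omega
  · obtain ⟨m, hm1, hm2⟩ : ∃ m, m ∈ C l ∧ ∀ i ∈ C l, m ≤ i :=
      ⟨(C l).min' (hC.1 l), Finset.min'_mem _ _, fun i hi => Finset.min'_le _ _ hi⟩
    have hlev : (C l).sup (fun i => K - τ i) = K := by
      refine le_antisymm (hsup τ _) ?_
      obtain ⟨i, hi, hi0⟩ := hz l
      have := Finset.le_sup (f := fun i => K - τ i) hi
      simp only [hi0] at this
      exact this
    have h1 : (C l).biUnion (fun i => tet^[τ i] (W i)) ∈ Q m K := by
      have := (hprod τ hτ (C l) (hC.1 l) m hm2).1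
      rwa [hlev] at this
    have hlt : ∀ l' < l, ∀ i ∈ C l', i < m := fun l' hl' i hi => hC.lt hl' i hi m hm1
    have hjm : j ≤ m := by
      rcases Nat.eq_zero_or_pos l with h0 | h0
      · rw [h0] at hm1
        exact hj m hm1
      · obtain ⟨i, hi⟩ := hC.1 0
        have := hj i hi
        have := hlt 0 h0 i hi
        omega
    have hge : ∀ l, ∀ i ∈ C l, l ≤ i := by
      intro l
      induction l with
      | zero => exact fun i _ => Nat.zero_le i
      | succ l ih =>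
        intro i hi
        obtain ⟨i', hi'⟩ := hC.1 l
        have := ih i' hi'
        have := hC.2 l i' hi' i hi
        omega
    refine hneed m h1 j hjm _ ?_ ?_
    · rw [List.length_map, List.length_range]
      exact hge l m hm1
    · intro y hy
      obtain ⟨l', hl', rfl⟩ := List.mem_map.1 hy
      rw [List.mem_range] at hl'
      intro t ht
      obtain ⟨i, hi, hti⟩ := Finset.mem_biUnion.1 ht
      apply hBmono (i + 1) m (hlt l' hl' i hi)
      rw [hBs]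
      exact Finset.mem_union_right _ (Finset.mem_biUnion.2 ⟨τ i, Finset.mem_range.2
        (by have := hτ i; omega), hti⟩)

end Pool.Agent.J6H10.GW
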