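import Pool.Agent.J6H10.GW.Fus
import Pool.Agent.J6H10.LW.Rec

/-!
# Gowers' theorem for closed families of block sequences, and record gaps
-/

set_option autoImplicit false

namespace Pool.Agent.J6H10.GW

open Filter Topology Pool.Agent.J6H10.LW Pool.Agent.H752R3.MT Pool.Agent.W126.RecSum
open Pool.Agent.H256R2.SC (ff)

/-- the places of the reduced words -/
theorem place_iter {t : ℕ} {w : Wc} {x : ℕ × ℕ} (hx : x ∈ tet^[t] w) : (x.1, x.2 + t) ∈ w := by
  obtain ⟨a, v⟩ := x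
  exact (mem_iter.1 hx).2

theorem fn_iter {t : ℕ} {w : Wc} (h : Fn w) : Fn (tet^[t] w) := by
  rintro ⟨a, v⟩ hx ⟨a', v'⟩ hx' haa
  simp only at haa
  subst haa
  have := h _ (place_iter hx) _ (place_iter hx') rfl
  simp only [Prod.mk.injEq, true_and] at this
  have : v = v' := by omega
  rw [this]

/-- block sequences of words of level `K` -/
structure TW (K : ℕ) (W : ℕ → Wc) : Prop where
  lev : ∀ i, Fn (W i) ∧ Lev K (W i)
  lt : ∀ i, ∀ t ∈ W i, ∀ t' ∈ W (i + 1), t.1 < t'.1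

theorem TW.bw {K : ℕ} {W : ℕ → Wc} (h : TW K W) : BW W :=
  ⟨fun i => ⟨by
    obtain ⟨x, hx, -⟩ := (h.lev i).2.2
    exact ⟨x, hx⟩, (h.lev i).1⟩, h.lt⟩

/-- the words `tet^[τ i] (W i)` have disjoint places -/
theorem disj_iter {W : ℕ → Wc} (h : BW W) (τ : ℕ → ℕ) {i j : ℕ} (hij : i ≠ j) :
    Disjoint (tet^[τ i] (W i)) (tet^[τ j] (W j)) := by
  rw [Finset.disjoint_left]
  intro t ht ht'
  have h1 := place_iter ht
  have h2 := place_iter ht'
  rcases Nat.lt_or_gt_of_ne hij with hl | hl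
  · have := h.lt hl _ h1 _ h2
    simp only at this
    omega
  · have := h.lt hl _ h2 _ h1
    simp only at this
    omega

theorem fn_comb {W : ℕ → Wc} (h : BW W) (τ : ℕ → ℕ) (F : Finset ℕ) :
    Fn (F.biUnion fun i => tet^[τ i] (W i)) := by
  intro t ht t' ht' htt
  obtain ⟨i, hi, hti⟩ := Finset.mem_biUnion.1 ht
  obtain ⟨j, hj, htj⟩ := Finset.mem_biUnion.1 ht'
  have h1 := place_iter hti
  have h2 := place_iter htj
  rcases lt_trichotomy i j with hl | hl | hl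
  · have := h.lt hl _ h1 _ h2
    simp only at this
    omega
  · subst hl
    exact fn_iter (h.1 i).2 t hti t' htj htt
  · have := h.lt hl _ h2 _ h1
    simp only at this
    omega

theorem bw_comb {K : ℕ} {W : ℕ → Wc} (h : TW K W) {C : ℕ → Finset ℕ} (hC : Blk C) {τ : ℕ → ℕ}
    (hz : ∀ l, ∃ i ∈ C l, τ i = 0) : BW fun l => (C l).biUnion fun i => tet^[τ i] (W i) := by
  refine ⟨fun l => ⟨?_, fn_comb h.bw τ _⟩, fun l t ht t' ht' => ?_⟩
  · obtain ⟨i, hi, hi0⟩ := hz l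
    obtain ⟨x, hx, -⟩ := (h.lev i).2.2
    refine ⟨x, Finset.mem_biUnion.2 ⟨i, hi, ?_⟩⟩
    rw [hi0]
    exact hx
  · obtain ⟨i, hi, hti⟩ := Finset.mem_biUnion.1 ht
    obtain ⟨j, hj, htj⟩ := Finset.mem_biUnion.1 ht'
    have := h.bw.lt (hC.2 l i hi j hj) _ (place_iter hti) _ (place_iter htj)
    exact this

/-- **Gowers' theorem for closed families of block sequences.** -/
theorem closed_tet {K : ℕ} (hK : 1 ≤ K) (P : ℕ → (ℕ → Wc) → Prop)
    (hcl : ∀ j Z, BW Z → ¬ P j Z → ∃ m, ∀ Z', BW Z' → (∀ i < m, Z' i = Z i) → ¬ P j Z')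
    (hex : ∀ j X, BW X → ∃ C : ℕ → Finset ℕ, Blk C ∧ P j (fun l => (C l).biUnion X)) :
    ∃ W : ℕ → Wc, TW K W ∧ ∀ (j : ℕ) (C : ℕ → Finset ℕ) (τ : ℕ → ℕ), Blk C → (∀ i ∈ C 0, j ≤ i) →
      (∀ i, τ i ≤ K) → (∀ l, ∃ i ∈ C l, τ i = 0) →
        P j (fun l => (C l).biUnion fun i => tet^[τ i] (W i)) := by
  classical
  obtain ⟨q, -, hok, hT, hq⟩ := gowers
  have hnd : ∀ j, ¬ Doom (q K) (P j) [] := by
    intro j hd
    obtain ⟨𝔸, hA, hD⟩ := hd
    obtain ⟨W, hW1, hW2, hW3⟩ := fusion hok hT hq hK (fun _ => 𝔸) (fun _ => hA)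
    have hW : TW K W := ⟨hW1, hW2⟩
    obtain ⟨C, hC, hP⟩ := hex j W hW.bw
    have hz : ∀ l, ∃ i ∈ C l, (fun _ : ℕ => 0) i = 0 := fun l => by
      obtain ⟨i, hi⟩ := hC.1 l
      exact ⟨i, hi, rfl⟩
    have hY : BW fun l => (C l).biUnion fun i => tet^[(fun _ : ℕ => 0) i] (W i) := bw_comb hW hC hz
    obtain ⟨i, hi⟩ := hD _ hY rfl (fun i _ => hW3 0 C (fun _ => 0) hC (fun i _ => Nat.zero_le i)
      (fun i => Nat.zero_le _) hz i)
    exact hi _ hY (by rw [pre_length]) hP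
  obtain ⟨W, hW1, hW2, hW3⟩ := fusion hok hT hq hK
    (fun j s => if Doom (q K) (P j) s then Set.univ else {x | ¬ Doom (q K) (P j) (s ++ [x])})
    (fun j s => by
      beta_reduce
      split_ifs with hs
      · exact univ_mem
      · by_contra hcon
        have hcon' := Ultrafilter.compl_mem_iff_notMem.2 hcon
        exact hs (doom_step (q K) (mem_of_superset hcon' fun x hx => not_not.1 hx)))
  have hW : TW K W := ⟨hW1, hW2⟩
  refine ⟨W, hW, fun j C τ hC hj hτ hz => ?_⟩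
  set Y : ℕ → Wc := fun l => (C l).biUnion fun i => tet^[τ i] (W i) with hYdef
  have hY : BW Y := bw_comb hW hC hz
  have hgood : ∀ l, ¬ Doom (q K) (P j) (pre Y l) := by
    intro l
    induction l with
    | zero => exact hnd j
    | succ l ih =>
      have h1 : Y l ∈ (if Doom (q K) (P j) (pre Y l) then Set.univ else
          {x | ¬ Doom (q K) (P j) (pre Y l ++ [x])} : Set Wc) := hW3 j C τ hC hj hτ hz l
      rw [if_neg ih] at h1
      rw [pre_succ]
      exact h1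
  by_contra hcon
  obtain ⟨m, hm⟩ := hcl j Y hY hcon
  refine hgood m (doom_of_bad (q K) ?_)
  intro Z hZ hZY
  rw [pre_length] at hZY
  exact hm Z hZ (pre_congr hZY)

/-- the iterated tetris operation in one step -/
def tt (t : ℕ) (w : Wc) : Wc := (w.filter fun x => t < x.2).image fun x => (x.1, x.2 - t)

theorem tt_eq {t : ℕ} {w : Wc} (hw : ∀ x ∈ w, 1 ≤ x.2) : tt t w = tet^[t] w := by
  ext ⟨a, v⟩
  rw [mem_iter]
  unfold tt
  rw [Finset.mem_image]
  constructor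
  · rintro ⟨⟨a', v'⟩, hx, he⟩
    obtain ⟨h1, h2⟩ := Finset.mem_filter.1 hx
    simp only [Prod.mk.injEq] at he h2
    obtain ⟨rfl, rfl⟩ := he
    refine ⟨Or.inr (by omega), ?_⟩
    have : v' - t + t = v' := by omega
    rw [this]
    exact h1
  · rintro ⟨h1, h2⟩
    refine ⟨(a, v + t), Finset.mem_filter.2 ⟨h2, ?_⟩, by simp⟩
    have := hw _ h2
    simp only at this ⊢
    omega

theorem tt_image {φ : ℕ → ℕ} (t : ℕ) (w : Wc) :
    tt t (w.image fun x => (φ x.1, x.2)) = (tt t w).image fun x => (φ x.1, x.2) := by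
  unfold tt
  rw [Finset.filter_image, Finset.image_image, Finset.image_image]
  rfl

/-- places along which the null sequences are summable -/
theorem sparseK (K : ℕ) (d : ℕ → ℕ → ℕ → ℝ) (hd : ∀ s a c, 0 < d s a c) :
    ∃ φ : ℕ → ℕ, StrictMono φ ∧ ∀ s, (∀ c, Tendsto (fun a => d s a c) atTop (𝓝 0)) →
      Summable (fun a => ∑ c ∈ Finset.range (K + 1), d s (φ a) c) := by
  classical
  obtain ⟨φ, hφ, h⟩ := Filter.extraction_forall_of_eventually
    (P := fun n k => ∀ s ∈ Finset.range (n + 1), ∀ c ∈ Finset.range (K + 1),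
      (∀ c, Tendsto (fun a => d s a c) atTop (𝓝 0)) → d s k c ≤ (1 / 2 : ℝ) ^ n / (K + 1)) (by
      intro n
      rw [Filter.eventually_all_finset]
      intro s _
      rw [Filter.eventually_all_finset]
      intro c _
      by_cases hs : ∀ c, Tendsto (fun a => d s a c) atTop (𝓝 0)
      · filter_upwards [(hs c).eventually (ge_mem_nhds (show (0 : ℝ) < (1 / 2 : ℝ) ^ n / (K + 1) by
          positivity))] with k hk _ using hk
      · exact Eventually.of_forall fun k h => absurd h hs)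
  refine ⟨φ, hφ, fun s hs => ?_⟩
  refine Summable.of_norm_bounded_eventually_nat (g := fun n => (1 / 2 : ℝ) ^ n)
    (summable_geometric_of_lt_one (by norm_num) (by norm_num)) ?_
  filter_upwards [eventually_ge_atTop s] with n hn
  rw [Real.norm_eq_abs, abs_of_pos (Finset.sum_pos (fun c _ => hd s _ c) ⟨0, by simp⟩)]
  calc ∑ c ∈ Finset.range (K + 1), d s (φ n) c ≤
      ∑ _c ∈ Finset.range (K + 1), (1 / 2 : ℝ) ^ n / (K + 1) :=
        Finset.sum_le_sum fun c hc => h n s (Finset.mem_range.2 (by omega)) c hc hs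
    _ = (1 / 2 : ℝ) ^ n := by
        rw [Finset.sum_const, Finset.card_range, nsmul_eq_mul]
        push_cast
        field_simp

/-- **Record gaps and Gowers' theorem.** -/
theorem main_tet {K : ℕ} (hK : 1 ≤ K) (H : ℕ → ℝ → ℝ) (hH : ∀ s, Scale (H s))
    (d : ℕ → ℕ → ℕ → ℝ) (hd : ∀ s a c, 0 < d s a c)
    (hc : ∀ s, (∀ c : ℝ, 0 < c → ∀ᶠ x : ℝ in atTop, H s x ≤ c * ff x) ∨
      ((∃ C : ℝ, ∀ᶠ x : ℝ in atTop, H s x ≤ C * ff x) ∧
        ∀ c, Tendsto (fun a => d s a c) atTop (𝓝 0)))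
    (q r : ℕ → ℕ) (hq : ∀ s, Squarefree (q s)) (hr : ∀ s, (r s).Coprime (q s))
    (ρ : ℕ → ∀ k, (Fin k → Wc) → ℝ) (hρ : ∀ s k P, 0 < ρ s k P) :
    ∃ W : ℕ → Wc, TW K W ∧
      ∀ s k m : ℕ, ∃ N : ℕ, ∀ (F : ℕ → Finset ℕ) (τ : ℕ → ℕ), (∀ i, τ i ≤ K) →
        (∀ l < k + m, ∃ i ∈ F l, τ i = 0) → (∀ l < k + m, ∀ i ∈ F l, N ≤ i) →
        (∀ l, l + 1 < k + m → ∀ i ∈ F l, ∀ i' ∈ F (l + 1), i < i') →
        (fun i : Fin m => ρ s k (fun l => (F l).biUnion fun i' => tt (τ i') (W i')) *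
          ∑ i' ∈ F (k + i), ∑ x ∈ tt (τ i') (W i'), d s x.1 x.2) ∈ LimH (H s) m (q s) (r s) ∧
        (fun i : Fin m => ρ s k (fun l => (F l).biUnion fun i' => tt (τ i') (W i')) *
          ∑ i' ∈ F (k + (Fin.rev i : Fin m)), ∑ x ∈ tt (τ i') (W i'), d s x.1 x.2) ∈
            LimH (H s) m (q s) (r s) := by
  classical
  obtain ⟨φ, hφ, hsum⟩ := sparseK K d hd
  obtain ⟨ψ, hψ⟩ : ∃ ψ : ℕ × ℕ → ℕ × ℕ, ψ = fun t => (φ t.1, t.2) := ⟨_, rfl⟩
  have hψinj : Function.Injective ψ := by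
    rintro ⟨a, v⟩ ⟨a', v'⟩ h
    rw [hψ] at h
    simp only [Prod.mk.injEq] at h
    rw [hφ.injective h.1, h.2]
  obtain ⟨D, hD⟩ : ∃ D : ℕ → ℕ × ℕ → ℝ, D = fun s t => d s (φ t.1) (min t.2 K) := ⟨_, rfl⟩
  have hD' : ∀ s t, D s t = d s (φ t.1) (min t.2 K) := fun s t => by rw [hD]
  have hDpos : ∀ s t, 0 < D s t := fun s t => by rw [hD']; exact hd _ _ _
  have hA : ∀ s, AdmW (H s) (D s) := by
    intro s
    rcases hc s with h | ⟨h, h'⟩
    · exact Or.inl h
    · refine Or.inr ⟨h, _, hsum s h', fun a => Finset.sum_nonneg fun c _ => (hd _ _ _).le,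
        fun t => ?_⟩
      rw [hD']
      exact Finset.single_le_sum (f := fun c => d s (φ t.1) c) (fun c _ => (hd _ _ _).le)
        (Finset.mem_range.2 (by omega))
  obtain ⟨ρ', hρ'⟩ : ∃ ρ' : ℕ → ∀ k, (Fin k → Wc) → ℝ,
      ρ' = fun s k P => ρ s k (fun l => (P l).image ψ) := ⟨_, rfl⟩
  have hρpos : ∀ s k P, 0 < ρ' s k P := fun s k P => by rw [hρ']; exact hρ _ _ _
  obtain ⟨W, hW, hP⟩ := closed_tet hK (fW H D q r ρ') (by
      intro t Z _ hg
      refine ⟨(Nat.unpair (Nat.unpair t).1).2 + (Nat.unpair (Nat.unpair t).2).1,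
        fun Z' _ h hg' => hg ?_⟩
      unfold fW faW at hg' ⊢
      split_ifs at hg' ⊢ with hb
      · exact gF_congr h hg'
      · exact gR_congr h hg') (by
      intro t X hX
      unfold fW faW
      split_ifs with hb
      · exact exFW (hH _) _ (hq _) (hr _) _ (hDpos _) (hA _) _ (fun P => hρpos _ _ P) X hX
      · exact exRW (hH _) _ (hq _) (hr _) _ (hDpos _) (hA _) _ (fun P => hρpos _ _ P) X hX)
  have hpos : ∀ i, ∀ x ∈ W i, 1 ≤ x.2 := fun i x hx => ((hW.lev i).2.1 x hx).1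
  have htt : ∀ t i, tt t (W i) = tet^[t] (W i) := fun t i => tt_eq (hpos i)
  have himg : ∀ t i, tt t ((W i).image ψ) = (tet^[t] (W i)).image ψ := by
    intro t i
    rw [hψ, tt_image, htt]
  have hwt : ∀ s t i, wr (D s) (tet^[t] (W i)) = ∑ x ∈ tt t ((W i).image ψ), d s x.1 x.2 := by
    intro s t i
    rw [himg, Finset.sum_image (fun a _ b _ hab => hψinj hab)]
    unfold wr
    refine Finset.sum_congr rfl fun x hx => ?_
    have h1 := ((hW.lev i).2.1 _ (place_iter hx)).2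
    simp only at h1
    rw [hD', hψ, min_eq_left (by omega)]
  refine ⟨fun i => (W i).image ψ, ⟨fun i => ⟨?_, ?_, ?_⟩, fun i t ht t' ht' => ?_⟩, fun s k m => ?_⟩
  · intro t ht t' ht' h
    obtain ⟨x, hx, rfl⟩ := Finset.mem_image.1 ht
    obtain ⟨x', hx', rfl⟩ := Finset.mem_image.1 ht'
    rw [hψ] at h
    simp only at h
    rw [(hW.lev i).1 x hx x' hx' (hφ.injective h)]
  · intro t ht
    obtain ⟨x, hx, rfl⟩ := Finset.mem_image.1 ht
    rw [hψ]
    exact (hW.lev i).2.1 x hx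
  · obtain ⟨x, hx, hxK⟩ := (hW.lev i).2.2
    refine ⟨ψ x, Finset.mem_image_of_mem _ hx, ?_⟩
    rw [hψ]
    exact hxK
  · obtain ⟨x, hx, rfl⟩ := Finset.mem_image.1 ht
    obtain ⟨x', hx', rfl⟩ := Finset.mem_image.1 ht'
    rw [hψ]
    exact hφ (hW.lt i x hx x' hx')
  · set c0 := Nat.pair (Nat.pair s k) (Nat.pair m 0) with hc0
    set c1 := Nat.pair (Nat.pair s k) (Nat.pair m 1) with hc1
    refine ⟨max c0 c1, fun F τ hτ hz h2 h3 => ?_⟩
    obtain ⟨C, hC1, hC2, hC3⟩ := extendB (F := F) (max c0 c1) (k + m)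
      (fun l hl => by
        obtain ⟨i, hi, -⟩ := hz l hl
        exact ⟨i, hi⟩) h2 h3
    -- reset the exponents outside the given blocks
    obtain ⟨τ', hτ'⟩ : ∃ τ' : ℕ → ℕ, τ' = fun i => if ∃ l < k + m, i ∈ F l then τ i else 0 :=
      ⟨_, rfl⟩
    have hτ'F : ∀ l < k + m, ∀ i ∈ F l, τ' i = τ i := by
      intro l hl i hi
      rw [hτ']
      exact if_pos ⟨l, hl, hi⟩
    have hτ'K : ∀ i, τ' i ≤ K := by
      intro i
      rw [hτ']
      beta_reduce
      split_ifs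
      · exact hτ i
      · exact Nat.zero_le _
    have hz' : ∀ l, ∃ i ∈ C l, τ' i = 0 := by
      intro l
      by_cases hl : l < k + m
      · obtain ⟨i, hi, hi0⟩ := hz l hl
        refine ⟨i, by rw [hC3 l hl]; exact hi, ?_⟩
        rw [hτ'F l hl i hi, hi0]
      · obtain ⟨i, hi⟩ := hC1.1 l
        refine ⟨i, hi, ?_⟩
        rw [hτ']
        refine if_neg ?_
        rintro ⟨l', hl', hi'⟩
        rw [← hC3 l' hl'] at hi'
        exact absurd (hC1.lt (by omega : l' < l) i hi' i hi) (lt_irrefl i)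
    have hsums : ∀ l < k + m, wr (D s) ((C l).biUnion fun i => tet^[τ' i] (W i)) =
        ∑ i' ∈ F l, ∑ x ∈ tt (τ i') ((W i').image ψ), d s x.1 x.2 := by
      intro l hl
      rw [hC3 l hl]
      have : wr (D s) ((F l).biUnion fun i => tet^[τ' i] (W i)) =
          ∑ i ∈ F l, wr (D s) (tet^[τ' i] (W i)) := by
        unfold wr
        rw [Finset.sum_biUnion (fun i _ j _ hij => disj_iter hW.bw τ' hij)]
      rw [this]
      refine Finset.sum_congr rfl fun i hi => ?_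
      rw [hτ'F l hl i hi, hwt]
    have hrho : ρ' s k (fun l => (C l).biUnion fun i => tet^[τ' i] (W i)) =
        ρ s k (fun l => (F l).biUnion fun i' => tt (τ i') ((W i').image ψ)) := by
      rw [hρ']
      beta_reduce
      congr 1
      funext l
      rw [hC3 l (by omega), Finset.biUnion_image]
      refine Finset.biUnion_congr rfl fun i hi => ?_
      rw [hτ'F l (by omega) i hi, himg]
    constructor
    · have h4 := fW_pair _ _ _ _ _ s k m 0 _ (hP c0 C τ' hC1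
        (fun i hi => (le_max_left _ _).trans (hC2 0 i hi)) hτ'K hz')
      unfold faW at h4
      rw [if_pos rfl] at h4
      unfold gF at h4
      convert h4 using 1
      funext i
      rw [← hsums (k + i) (by omega), ← hrho]
    · have h4 := fW_pair _ _ _ _ _ s k m 1 _ (hP c1 C τ' hC1
        (fun i hi => (le_max_right _ _).trans (hC2 0 i hi)) hτ'K hz')
      unfold faW at h4
      rw [if_neg one_ne_zero] at h4
      unfold gR at h4
      convert h4 using 1
      funext i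
      rw [← hsums (k + (Fin.rev i : Fin m)) (by have := (Fin.rev i).2; omega), ← hrho]

end Pool.Agent.J6H10.GW
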