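import Pool.Agent.J6H10.LW.Ult

/-!
# Gowers' ultrafilters on the finitely supported functions with `k` values

A function `p : ℕ → {0, …, k}` with finite support is represented by the finite set of the pairs `(a, p a)`,
`p a ≥ 1`. `tet` is the tetris operation `p ↦ max (p - 1) 0`.
-/

set_option autoImplicit false

namespace Pool.Agent.J6H10.GW

open Filter Topology Pool.Agent.J6H10.LW

attribute [local instance] finSemigroup Ultrafilter.mul Ultrafilter.semigroup

/-- the tetris operation -/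
def tet (w : Wc) : Wc := (w.filter fun x => 1 < x.2).image fun x => (x.1, x.2 - 1)

/-- a section of the tetris operation -/
def up (w : Wc) : Wc := w.image fun x => (x.1, x.2 + 1)

theorem tet_union (x y : Wc) : tet (x ∪ y) = tet x ∪ tet y := by
  unfold tet
  rw [Finset.filter_union, Finset.image_union]

theorem mem_tet {w : Wc} {a v : ℕ} : (a, v) ∈ tet w ↔ 1 ≤ v ∧ (a, v + 1) ∈ w := by
  unfold tet
  rw [Finset.mem_image]
  constructor
  · rintro ⟨⟨a', v'⟩, hx, he⟩
    obtain ⟨h1, h2⟩ := Finset.mem_filter.1 hx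
    simp only [Prod.mk.injEq] at he h2
    obtain ⟨rfl, rfl⟩ := he
    refine ⟨by omega, ?_⟩
    have : v' - 1 + 1 = v' := by omega
    rw [this]
    exact h1
  · rintro ⟨h1, h2⟩
    exact ⟨(a, v + 1), Finset.mem_filter.2 ⟨h2, by simp only; omega⟩, by simp⟩

/-- all values between `1` and `n`, with value `n` attained -/
def Lev (n : ℕ) (w : Wc) : Prop := (∀ x ∈ w, 1 ≤ x.2 ∧ x.2 ≤ n) ∧ ∃ x ∈ w, x.2 = n

theorem tet_up {n : ℕ} {w : Wc} (h : Lev n w) : tet (up w) = w := by
  ext ⟨a, v⟩
  rw [mem_tet]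
  unfold up
  rw [Finset.mem_image]
  constructor
  · rintro ⟨_, ⟨a', v'⟩, hx, he⟩
    simp only [Prod.mk.injEq] at he
    obtain ⟨rfl, h2⟩ := he
    have : v' = v := by omega
    rw [← this]
    exact hx
  · intro hx
    exact ⟨(h.1 _ hx).1, (a, v), hx, rfl⟩

theorem Bd.up {n : ℕ} {w : Wc} (h : Bd n w) : Bd n (up w) := by
  refine ⟨h.1.image _, fun t ht => ?_⟩
  obtain ⟨s, hs, rfl⟩ := Finset.mem_image.1 ht
  exact h.2 s hs

theorem Fn.up {w : Wc} (h : Fn w) : Fn (up w) := by
  intro t ht t' ht' htt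
  obtain ⟨s, hs, rfl⟩ := Finset.mem_image.1 ht
  obtain ⟨s', hs', rfl⟩ := Finset.mem_image.1 ht'
  rw [h s hs s' hs' htt]

theorem Lev.up {n : ℕ} {w : Wc} (h : Lev n w) : Lev (n + 1) (up w) := by
  refine ⟨fun t ht => ?_, ?_⟩
  · obtain ⟨s, hs, rfl⟩ := Finset.mem_image.1 ht
    have := h.1 s hs
    simp only
    omega
  · obtain ⟨x, hx, hxn⟩ := h.2
    exact ⟨_, Finset.mem_image_of_mem _ hx, by simp only; omega⟩

theorem Lev.union {m n : ℕ} {w w' : Wc} (h : Lev m w) (h' : Lev n w') : Lev (max m n) (w ∪ w') := by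
  refine ⟨fun t ht => ?_, ?_⟩
  · rcases Finset.mem_union.1 ht with h1 | h1
    · have := h.1 t h1
      omega
    · have := h'.1 t h1
      omega
  · rcases le_total m n with hmn | hmn
    · obtain ⟨x, hx, hxn⟩ := h'.2
      exact ⟨x, Finset.mem_union_right _ hx, by rw [hxn, max_eq_right hmn]⟩
    · obtain ⟨x, hx, hxn⟩ := h.2
      exact ⟨x, Finset.mem_union_left _ hx, by rw [hxn, max_eq_left hmn]⟩

/-- the unit -/
theorem unit_mul (U : Ultrafilter Wc) : (pure ∅ : Ultrafilter Wc) * U = U := by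
  apply Ultrafilter.ext
  intro s
  rw [LW.mem_mul, Ultrafilter.mem_pure]
  show {y | (∅ : Wc) ∪ y ∈ s} ∈ U ↔ _
  simp only [Finset.empty_union]
  exact Iff.rfl

theorem mul_unit (U : Ultrafilter Wc) : U * (pure ∅ : Ultrafilter Wc) = U := by
  apply Ultrafilter.ext
  intro s
  rw [LW.mem_mul]
  have : {x : Wc | {y | x ∪ y ∈ s} ∈ (pure ∅ : Ultrafilter Wc)} = s := by
    ext x
    rw [Set.mem_ofPred_eq, Ultrafilter.mem_pure, Set.mem_ofPred_eq, Finset.union_empty]
  rw [this]

theorem map_tet_unit : (pure ∅ : Ultrafilter Wc).map tet = pure ∅ := by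
  apply Ultrafilter.ext
  intro s
  rw [Ultrafilter.mem_map, Ultrafilter.mem_pure, Ultrafilter.mem_pure]
  have : tet ∅ = ∅ := by unfold tet; simp
  rw [Set.mem_preimage, this]

/-- the properties of the `n`-th ultrafilter -/
structure St (n : ℕ) (q : Ultrafilter Wc) : Prop where
  idem : q * q = q
  absl : q.map tet * q = q
  absr : q * q.map tet = q
  zero : n = 0 → q = pure ∅
  pos : 1 ≤ n → Ok q ∧ {w | Lev n w} ∈ q

theorem lev_mul {m n : ℕ} {U V : Ultrafilter Wc} (hU : {w | Lev m w} ∈ U) (hV : {w | Lev n w} ∈ V) :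
    {w | Lev (max m n) w} ∈ U * V := by
  rw [LW.mem_mul]
  filter_upwards [hU] with x hx
  filter_upwards [hV] with y hy using Lev.union hx hy

theorem step {n : ℕ} {q : Ultrafilter Wc} (h : St n q) : ∃ q' : Ultrafilter Wc, St (n + 1) q' ∧
    q'.map tet = q ∧ q * q' = q' ∧ q' * q = q' := by
  -- the lifts
  set S : Set (Ultrafilter Wc) := {U | Ok U ∧ {w | Lev (n + 1) w} ∈ U ∧ U.map tet = q} with hS
  have hSc : IsClosed S := by
    have h1 : S = {U | Ok U} ∩ ({U | {w | Lev (n + 1) w} ∈ U} ∩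
        (fun U : Ultrafilter Wc => U.map tet) ⁻¹' {q}) := by
      ext U
      simp only [hS, Set.mem_ofPred_eq, Set.mem_inter_iff, Set.mem_preimage, Set.mem_singleton_iff]
    rw [h1]
    exact isClosed_Ok.inter ((ultrafilter_isClosed_basic _).inter
      (isClosed_singleton.preimage (continuous_map' tet)))
  have hSn : S.Nonempty := by
    rcases Nat.eq_zero_or_pos n with hn | hn
    · have hq := h.zero hn
      refine ⟨(hyperfilter ℕ).map (fun m => ({(m, 1)} : Wc)), ok_far 1, ?_, ?_⟩
      · rw [Ultrafilter.mem_map]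
        refine Filter.Eventually.of_forall fun m => ?_
        refine ⟨fun x hx => ?_, (m, 1), Finset.mem_singleton_self _, by simp only; omega⟩
        rw [Finset.mem_singleton] at hx
        rw [hx]
        simp only
        omega
      · rw [hq, Ultrafilter.map_map]
        apply Ultrafilter.ext
        intro s
        rw [Ultrafilter.mem_map, Ultrafilter.mem_pure]
        have : ∀ m : ℕ, (tet ∘ fun m : ℕ => ({(m, 1)} : Wc)) m = ∅ := by
          intro m
          simp only [Function.comp]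
          unfold tet
          rw [Finset.filter_singleton, if_neg (by simp)]
          simp
        have h2 : (tet ∘ fun m : ℕ => ({(m, 1)} : Wc)) ⁻¹' s = {_m | (∅ : Wc) ∈ s} := by
          ext m
          rw [Set.mem_preimage, this m]
          exact Iff.rfl
        rw [h2]
        by_cases h3 : (∅ : Wc) ∈ s
        · simp only [h3]
          refine ⟨fun _ => trivial, fun _ => ?_⟩
          exact univ_mem
        · simp only [h3]
          refine ⟨fun h4 => ?_, fun h4 => h4.elim⟩
          exact Ultrafilter.empty_notMem h4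
    · obtain ⟨hok, hlev⟩ := h.pos hn
      refine ⟨q.map up, ⟨fun m => ?_, ?_⟩, ?_, ?_⟩
      · rw [Ultrafilter.mem_map]
        filter_upwards [hok.1 m] with x hx using Bd.up hx
      · rw [Ultrafilter.mem_map]
        filter_upwards [hok.2] with x hx using Fn.up hx
      · rw [Ultrafilter.mem_map]
        filter_upwards [hlev] with x hx using Lev.up hx
      · rw [Ultrafilter.map_map]
        apply Ultrafilter.ext
        intro s
        rw [Ultrafilter.mem_map]
        constructor
        · intro h1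
          filter_upwards [h1, hlev] with x hx hx2
          have h3 : tet (up x) ∈ s := hx
          rwa [tet_up hx2] at h3
        · intro h1
          filter_upwards [h1, hlev] with x hx hx2
          show tet (up x) ∈ s
          rw [tet_up hx2]
          exact hx
  have hokq : ∀ U V : Ultrafilter Wc, Ok U → Ok V → Ok (U * V) := fun U V => Ok.mul
  have hokUq : ∀ U : Ultrafilter Wc, Ok U → Ok (U * q) := by
    intro U hU
    rcases Nat.eq_zero_or_pos n with hn | hn
    · rw [h.zero hn, mul_unit]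
      exact hU
    · exact hU.mul (h.pos hn).1
  have hokqU : ∀ U : Ultrafilter Wc, Ok U → Ok (q * U) := by
    intro U hU
    rcases Nat.eq_zero_or_pos n with hn | hn
    · rw [h.zero hn, unit_mul]
      exact hU
    · exact (h.pos hn).1.mul hU
  have hlUq : ∀ U : Ultrafilter Wc, {w | Lev (n + 1) w} ∈ U → {w | Lev (n + 1) w} ∈ U * q := by
    intro U hU
    rcases Nat.eq_zero_or_pos n with hn | hn
    · rw [h.zero hn, mul_unit]
      exact hU
    · have := lev_mul hU (h.pos hn).2
      rwa [max_eq_left (Nat.le_succ n)] at this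
  have hlqU : ∀ U : Ultrafilter Wc, {w | Lev (n + 1) w} ∈ U → {w | Lev (n + 1) w} ∈ q * U := by
    intro U hU
    rcases Nat.eq_zero_or_pos n with hn | hn
    · rw [h.zero hn, unit_mul]
      exact hU
    · have := lev_mul (h.pos hn).2 hU
      rwa [max_eq_right (Nat.le_succ n)] at this
  -- the compact semigroup of the products `U * q`
  set R : Set (Ultrafilter Wc) := (fun U => U * q) '' S with hR
  have hRc : IsCompact R := hSc.isCompact.image (Ultrafilter.continuous_mul_left q)
  have hRn : R.Nonempty := hSn.image _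
  have hRm : ∀ᵉ (x ∈ R) (y ∈ R), x * y ∈ R := by
    rintro _ ⟨x, ⟨hx1, hx2, hx3⟩, rfl⟩ _ ⟨y, ⟨hy1, hy2, hy3⟩, rfl⟩
    refine ⟨x * q * y, ⟨(hokUq x hx1).mul hy1, ?_, ?_⟩, ?_⟩
    · have := lev_mul (hlUq x hx2) hy2
      rwa [max_self] at this
    · rw [map_mul' tet tet_union, map_mul' tet tet_union, hx3, hy3, mul_assoc, h.absl, h.idem]
    · show x * q * y * q = x * q * (y * q)
      rw [mul_assoc (x * q)]
  obtain ⟨e, ⟨x, ⟨hx1, hx2, hx3⟩, hxe⟩, hee⟩ := exists_idempotent_in_compact_subsemigroup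
    (fun r : Ultrafilter Wc => Ultrafilter.continuous_mul_left r) R hRn hRc hRm
  have hxe' : e = x * q := hxe.symm
  have heq : e * q = e := by rw [hxe', mul_assoc, h.idem]
  have hmap : (q * e).map tet = q := by
    rw [hxe', map_mul' tet tet_union, map_mul' tet tet_union, hx3, ← mul_assoc, h.absl, h.absr]
  have hqq : q * (q * e) = q * e := by rw [← mul_assoc, h.idem]
  have hqeq : q * e * q = q * e := by rw [mul_assoc, heq]
  refine ⟨q * e, ⟨?_, ?_, ?_, fun h0 => by omega, fun _ => ⟨?_, ?_⟩⟩, hmap, hqq, hqeq⟩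
  · calc q * e * (q * e) = q * (e * q) * e := by simp only [mul_assoc]
      _ = q * e * e := by rw [heq]
      _ = q * (e * e) := mul_assoc _ _ _
      _ = q * e := by rw [hee]
  · rw [hmap, hqq]
  · rw [hmap, hqeq]
  · rw [hxe']
    exact hokqU _ (hokUq x hx1)
  · rw [hxe']
    exact hlqU _ (hlUq x hx2)

/-- **Gowers' ultrafilters.** -/
theorem gowers : ∃ q : ℕ → Ultrafilter Wc, q 0 = pure ∅ ∧ (∀ n, 1 ≤ n → Ok (q n) ∧
    {w | Lev n w} ∈ q n) ∧ (∀ n, (q (n + 1)).map tet = q n) ∧
    ∀ m n, q m * q n = q (max m n) := by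
  classical
  have h0 : St 0 (pure ∅ : Ultrafilter Wc) := by
    refine ⟨unit_mul _, ?_, ?_, fun _ => rfl, fun h => by omega⟩
    · rw [map_tet_unit, unit_mul]
    · rw [map_tet_unit, unit_mul]
  have hstep : ∀ (n : ℕ) (q : {q : Ultrafilter Wc // St n q}), ∃ q' : {q : Ultrafilter Wc // St (n + 1) q},
      q'.1.map tet = q.1 ∧ q.1 * q'.1 = q'.1 ∧ q'.1 * q.1 = q'.1 := by
    rintro n ⟨q, hq⟩
    obtain ⟨q', h1, h2, h3, h4⟩ := step hq
    exact ⟨⟨q', h1⟩, h2, h3, h4⟩
  choose nx hnx1 hnx2 hnx3 using hstep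
  let Q : ∀ n, {q : Ultrafilter Wc // St n q} := fun n => Nat.rec ⟨pure ∅, h0⟩ (fun n q => nx n q) n
  have hQs : ∀ n, Q (n + 1) = nx n (Q n) := fun n => rfl
  have hs1 : ∀ n, (Q n).1 * (Q (n + 1)).1 = (Q (n + 1)).1 := fun n => by rw [hQs]; exact hnx2 n _
  have hs2 : ∀ n, (Q (n + 1)).1 * (Q n).1 = (Q (n + 1)).1 := fun n => by rw [hQs]; exact hnx3 n _
  have hle : ∀ m n, m ≤ n → (Q m).1 * (Q n).1 = (Q n).1 ∧ (Q n).1 * (Q m).1 = (Q n).1 := by
    intro m n hmn
    induction n, hmn using Nat.le_induction with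
    | base => exact ⟨(Q m).2.idem, (Q m).2.idem⟩
    | succ n _ ih =>
      constructor
      · rw [← hs1 n, ← mul_assoc, ih.1]
      · rw [← hs2 n, mul_assoc, ih.2]
  refine ⟨fun n => (Q n).1, (Q 0).2.zero rfl, fun n hn => (Q n).2.pos hn, fun n => ?_, fun m n => ?_⟩
  · show ((Q (n + 1)).1).map tet = (Q n).1
    rw [hQs]
    exact hnx1 n _
  · rcases le_total m n with h | h
    · show (Q m).1 * (Q n).1 = (Q (max m n)).1
      rw [max_eq_right h]
      exact (hle m n h).1
    · show (Q m).1 * (Q n).1 = (Q (max m n)).1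
      rw [max_eq_left h]
      exact (hle n m h).2

end Pool.Agent.J6H10.GW
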